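import Pool.Agent.H186.KS.Spec

/-!
# Bound of elementary symmetric polynomials of signs (task S_elb)
-/

set_option autoImplicit false

open Finset

namespace Pool.Agent.H282.KS

open Pool.Agent.H186.KS

section poly

open Polynomial

/-- the generating polynomial -/
noncomputable def gp {n : ℕ} (y : Fin n → ℝ) : ℝ[X] := ∏ i : Fin n, (1 + C (y i) * X)

theorem gp_coeff {n : ℕ} (y : Fin n → ℝ) (j : ℕ) : (gp y).coeff j = el y j := by
  unfold gp el
  rw [Finset.prod_one_add, finsetSum_coeff]
  have h1 : ∀ t : Finset (Fin n), (∏ i ∈ t, C (y i) * X : ℝ[X]).coeff j =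
      if #t = j then ∏ i ∈ t, y i else 0 := by
    intro t
    rw [Finset.prod_mul_distrib, Finset.prod_const, ← map_prod, coeff_C_mul_X_pow]
    by_cases h : #t = j
    · rw [if_pos h, if_pos h.symm]
    · rw [if_neg h, if_neg (fun h' => h h'.symm)]
  simp_rw [h1]
  rw [← Finset.sum_filter]
  refine Finset.sum_congr ?_ fun _ _ => rfl
  ext t
  simp [Finset.mem_powersetCard]

theorem gp_deriv {n : ℕ} (y : Fin n → ℝ) (hy : ∀ i, y i = 1 ∨ y i = -1) :
    (1 - X ^ 2) * derivative (gp y) = (C (∑ i, y i) - C (n : ℝ) * X) * gp y := by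
  classical
  have h1 : ∀ i : Fin n, (1 - X ^ 2) * ((∏ j ∈ univ.erase i, (1 + C (y j) * X)) *
      derivative (1 + C (y i) * X)) = (C (y i) - X) * gp y := by
    intro i
    have e1 : gp y = (1 + C (y i) * X) * ∏ j ∈ univ.erase i, (1 + C (y j) * X) :=
      (Finset.mul_prod_erase univ (fun i => (1 + C (y i) * X)) (Finset.mem_univ i)).symm
    have e2 : derivative (1 + C (y i) * X) = C (y i) := by
      simp
    rw [e1, e2]
    have e3 : (C (y i) * C (y i) : ℝ[X]) = 1 := by
      rw [← C_mul]
      rcases hy i with h | h <;> rw [h] <;> norm_num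
    linear_combination (-X * ∏ j ∈ univ.erase i, (1 + C (y j) * X)) * e3
  have h2 : derivative (gp y) = ∑ i, (∏ j ∈ univ.erase i, (1 + C (y j) * X)) *
      derivative (1 + C (y i) * X) := by
    unfold gp
    rw [derivative_prod_finset]
  rw [h2, Finset.mul_sum, Finset.sum_congr rfl fun i _ => h1 i, ← Finset.sum_mul,
    Finset.sum_sub_distrib, map_sum, Finset.sum_const, Finset.card_univ, Fintype.card_fin,
    nsmul_eq_mul]
  simp

theorem el_rec {n : ℕ} (y : Fin n → ℝ) (hy : ∀ i, y i = 1 ∨ y i = -1) (j : ℕ) :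
    ((j : ℝ) + 2) * el y (j + 2) = (∑ i, y i) * el y (j + 1) - ((n : ℝ) - j) * el y j := by
  have h := congrArg (fun p : ℝ[X] => p.coeff (j + 1)) (gp_deriv y hy)
  simp only [sub_mul, one_mul, coeff_sub, coeff_derivative, mul_assoc, coeff_C_mul,
    coeff_X_mul, gp_coeff] at h
  have h2 : (X ^ 2 * derivative (gp y)).coeff (j + 1) = (j : ℝ) * el y j := by
    rw [coeff_X_pow_mul']
    cases j with
    | zero => simp
    | succ i =>
      rw [if_pos (by omega)]
      have e : i + 1 + 1 - 2 = i := by omega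
      rw [e, coeff_derivative, gp_coeff]
      push_cast
      ring
  rw [h2] at h
  push_cast at h
  linarith

theorem el_zero {n : ℕ} (y : Fin n → ℝ) : el y 0 = 1 := by
  unfold el
  simp

theorem el_one {n : ℕ} (y : Fin n → ℝ) : el y 1 = ∑ i, y i := by
  unfold el
  rw [Finset.powersetCard_one, Finset.sum_map]
  simp

end poly

theorem s_elb : S_elb := by
  intro n k y w hkn hy hw hb
  have key : ∀ j : ℕ, (j ≤ k → |el y j| ≤ (n.choose j : ℝ) * w ^ j) ∧
      (j + 1 ≤ k → |el y (j + 1)| ≤ (n.choose (j + 1) : ℝ) * w ^ (j + 1)) := by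
    intro j
    induction j with
    | zero =>
      refine ⟨fun _ => ?_, fun h => ?_⟩
      · rw [el_zero]; simp
      · rw [el_one, zero_add, Nat.choose_one_right, pow_one]
        have h1 := hb 0 (by omega)
        rw [Nat.cast_zero, add_zero, sub_zero] at h1
        have h2 : |∑ i, y i| * w ≤ ((n : ℝ) * w) * w := by
          rw [mul_assoc, ← sq]; exact h1
        exact le_of_mul_le_mul_right h2 hw
    | succ j ih =>
      refine ⟨ih.2, fun h => ?_⟩
      have h0 := ih.1 (by omega)
      have h1 := ih.2 (by omega)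
      have h2 := hb (j + 1) (by omega)
      have hr := el_rec y hy j
      have hj2 : (0 : ℝ) < (j : ℝ) + 2 := by positivity
      have hnj : (0 : ℝ) ≤ (n : ℝ) - j := by
        have : (j : ℝ) ≤ n := by exact_mod_cast (by omega : j ≤ n)
        linarith
      -- binomial identities
      have c1 : (n.choose (j + 1) : ℝ) * ((j : ℝ) + 1) = (n.choose j : ℝ) * ((n : ℝ) - j) := by
        have := Nat.choose_succ_right_eq n j
        have h3 : ((n - j : ℕ) : ℝ) = (n : ℝ) - j := Nat.cast_sub (by omega)
        rw [← h3]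
        exact_mod_cast this
      have c2 : (n.choose (j + 2) : ℝ) * ((j : ℝ) + 2) =
          (n.choose (j + 1) : ℝ) * ((n : ℝ) - (j + 1)) := by
        have := Nat.choose_succ_right_eq n (j + 1)
        have h3 : ((n - (j + 1) : ℕ) : ℝ) = (n : ℝ) - (j + 1) := by
          rw [Nat.cast_sub (by omega)]; push_cast; ring
        rw [← h3]
        exact_mod_cast this
      have hC0 : (0 : ℝ) ≤ (n.choose (j + 1) : ℝ) := Nat.cast_nonneg _
      have hwj : 0 ≤ w ^ j := by positivity
      have h4 : ((j : ℝ) + 2) * |el y (j + 2)| ≤ ((j : ℝ) + 2) *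
          ((n.choose (j + 2) : ℝ) * w ^ (j + 2)) := by
        calc ((j : ℝ) + 2) * |el y (j + 2)| = |((j : ℝ) + 2) * el y (j + 2)| := by
              rw [abs_mul, abs_of_pos hj2]
          _ = |(∑ i, y i) * el y (j + 1) - ((n : ℝ) - j) * el y j| := by rw [hr]
          _ ≤ |(∑ i, y i) * el y (j + 1)| + |((n : ℝ) - j) * el y j| := abs_sub _ _
          _ = |∑ i, y i| * |el y (j + 1)| + ((n : ℝ) - j) * |el y j| := by
              rw [abs_mul, abs_mul, abs_of_nonneg hnj]
          _ ≤ |∑ i, y i| * ((n.choose (j + 1) : ℝ) * w ^ (j + 1)) +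
              ((n : ℝ) - j) * ((n.choose j : ℝ) * w ^ j) :=
              add_le_add (mul_le_mul_of_nonneg_left h1 (abs_nonneg _))
                (mul_le_mul_of_nonneg_left h0 hnj)
          _ = (n.choose (j + 1) : ℝ) * w ^ j * (|∑ i, y i| * w + ((j : ℝ) + 1)) := by
              rw [pow_succ]
              linear_combination (-(w ^ j)) * c1
          _ ≤ (n.choose (j + 1) : ℝ) * w ^ j * (((n : ℝ) - (j + 1)) * w ^ 2) := by
              refine mul_le_mul_of_nonneg_left ?_ (mul_nonneg hC0 hwj)
              push_cast at h2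
              exact h2
          _ = ((j : ℝ) + 2) * ((n.choose (j + 2) : ℝ) * w ^ (j + 2)) := by
              rw [pow_add]
              linear_combination (-(w ^ j * w ^ 2)) * c2
      exact le_of_mul_le_mul_left h4 hj2
  intro j hj
  exact (key j).1 hj

end Pool.Agent.H282.KS
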